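import Pool.Agent.V11223.HW.Corr
import Pool.Agent.V11223.HW.Time

/-!
# Constructing a positive Hurwitz product in polynomial time

The algorithm. Let `r` be the first index. Breadth-first search in the digraph of the positive entries
(its edges are coloured by the matrices) gives for every vertex `v` walks `P v` from `r` to `v` and
`Q v` from `v` to `r` with at most `n` edges. Output `N` times the colour vector of the union of the
closed walks `P u, e, Q v` (for all edges `e = (u, v)`) and `P v, Q v` (for all vertices `v`), where `N`
is a power of two with polynomially many digits.

Correctness. The colour vectors of these closed walks generate the lattice of the colour vectors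
of all closed walks at `r`, and for an `m`-primitive family this is the lattice of all integer vectors
(supported by the colours that occur). So for all `i`, `j` the vector of the walk `Q i, P j` and the output
differ by an integer combination of these vectors with nonnegative coefficients, by a bound
for the coefficients from Cramer's rule.
-/

namespace Pool.Agent.Results.MP_9c2350_lc.PolyTimeHurwitz

open Pool.Agent.NPC Pool.Agent.V11223.HW

/-- There is an algorithm `f`, computed by a Turing machine in polynomial time, which, given any
`m`-primitive family of nonnegative rational `n × n` matrices (as a list of matrices, each a list of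
rows), outputs a colour vector `α` such that the Hurwitz product `𝒜^α` is positive. -/
theorem result : ∃ f : List (List (List ℚ)) → List ℕ,
    Nonempty (Turing.TM2ComputableInPolyTime (bits : List (List (List ℚ)) → List Bool)
      (bits : List ℕ → List Bool) f) ∧
    ∀ (n m : ℕ) (A : Fin m → Matrix (Fin n) (Fin n) ℚ), 0 < n → (∀ k i j, 0 ≤ A k i j) →
      (∃ α : Fin m → ℕ, IsPositive A α) →
        ∃ α : Fin m → ℕ, IsPositive A α ∧
          f (List.ofFn fun k => List.ofFn fun i => List.ofFn fun j => A k i j) = List.ofFn α :=
  ⟨algo, H532.Poly.toTM V11223HW.algo_poly, fun _ _ _ hn hA hp => algo_correct hn hA hp⟩

end Pool.Agent.Results.MP_9c2350_lc.PolyTimeHurwitz
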